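import Pool.Agent.R869.WLang
import Pool.Agent.R869.SPtd
import Pool.Agent.R869.UAll

/-!
MP_c6ff8d_ag, Q1: hyperbolicity and subvarieties of general type for the projective varieties given by
linear combinations of the powers `x_j ^ d` and of `s` further monomials of degree `d`, in given sets
of variables, for almost all choices of these monomials; for the hypersurfaces among them (with
arbitrary coefficients), a necessary and sufficient combinatorial criterion for hyperbolicity, and for
the existence of entire curves, of rational curves, and of subvarieties which are not of general type,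
with given vanishing coordinates; hyperbolicity of all projective varieties near them, with arbitrary
monomials.

`Brody F` (`Pool/Agent/Y190/PH/Tor.lean`, starting repository): all entire curves in `X = {F = 0}` are
constant. `PicardHyperbolic F`, `NoRationalCurves F` (`Pool/Agent/R869/WLang.lean`): all holomorphic
maps from the punctured disc to `X` extend to the disc; all morphisms from the projective line to `X`
are constant. `AlgHyperbolic A F`, `BoundedOnCurves F`, `OrbitsConstant F`
(`Pool/Agent/W603/CX/Groupless.lean`): the maps from curves of genus `g` to `X` have degree at most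
`A max (2 g - 2) 0`; the degrees of the maps from each curve to `X` are bounded; all maps
`t ↦ (x_0 t ^ b_0 : … : x_n t ^ b_n)` from the multiplicative group to `X` are constant. `GmCurve`,
`AllGeneralType`, `IsForm` (`Pool/Agent/W602/GT`): nonconstant morphisms from the multiplicative group
to `X`; all closed subvarieties of positive dimension are of general type.
`Loose F J` (`Pool/Agent/R869/USharpDefs.lean`): `F` does not have exactly one monomial in the
variables from `J`, and there is a colouring of the variables with `V ≥ 2` colours on `J` such that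
`N + D + 4 ≤ 2 V`, where `N` is the number of the monomials of `F` in the variables from `J` whose
variables have different colours, and `D` is the number of the colours on `J` for which exactly one
monomial of `F` in the variables from `J` has all its variables of this colour. `OrbitIn F b x`
(`SDir.lean`): the points `(t ^ b_j x_j)` are in `X`.
`WideT U T N` (`Pool/Agent/R869/WHgt.lean`): whenever at most `n` pairs of elements of the sets
`T e`, in the variables of a set `I`, are such that the sum of the segments between them has positive
width in all directions, this sum has width at least `N` in all directions that are minimal on `U`.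
`TuplesIn I d`, `AlmostAllIn I P`, `Spread I m J` (`SDefs.lean`): the tuples of exponent vectors of
degree `d`, the `i`-th one of a monomial in the variables from `I i`; the proportion of the tuples
with the property `P` tends to `1` for `d → ∞`; for all colourings of the variables which are not
constant on `J`, `∑ min (m + 1) (a v + b v) ≤ m (N + 2) + 1`, the sum over the colours `v` on `J`,
where `a v` and `b v` are the numbers of the variables from `J` and of the sets `I i ⊆ J` with the
colour `v`, and `N` is the number of the sets `I i ⊆ J` with different colours. `withPowers`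
(`WDensDefs.lean`): the set of the exponent vectors `a i` and of those of the `x_j ^ d`.
`GenCoeffs F T` (`WGen.lean`): the coefficient vectors of the `m` forms `F e` at any `m` elements of
`T` are linearly independent (all coefficients are nonzero, if `m = 1`).
-/

set_option autoImplicit false

namespace Pool.Agent.Results.MP_c6ff8d_ag.AlmostAllMonomials

open MvPolynomial Pool.Agent.W602.GT Pool.Agent.H159R3.GGLLog Pool.Agent.R869.Wd
open Pool.Agent.W603.CX (AlgHyperbolic BoundedOnCurves OrbitsConstant)
open Pool.Agent.Y190.PH (Brody)

/-- Hyperbolicity of all the projective varieties near `X = {F = 0}`, given by forms which differ by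
at most `ε` from the forms `F e` on the unit ball. -/
def HyperbolicNear {n : ℕ} {ι : Type} (F : ι → MvPolynomial (Fin (n + 1)) ℂ) : Prop :=
  ∃ ε : ℝ, 0 < ε ∧ ∀ F' : ι → MvPolynomial (Fin (n + 1)) ℂ, (∀ e, IsForm (F' e)) →
    (∀ e u, ‖u‖ ≤ 1 → ‖eval u (F' e) - eval u (F e)‖ ≤ ε) → Brody F'

/-- For `X = {F = 0}`, the following are equivalent: `X` is hyperbolic; all closed subvarieties of
positive dimension are of general type; all holomorphic maps from the punctured disc to `X` extend;
`X` is algebraically hyperbolic, with the constant `A`; the degrees of the maps from each curve to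
`X` are bounded; `X` contains no rational curves; there are no nonconstant morphisms from the
multiplicative group to `X`; in particular none of the form `t ↦ (x_j t ^ b_j)`; all projective
varieties near `X`, and `X` itself, are hyperbolic. -/
def Equivalent {n : ℕ} {ι : Type} (A : ℕ) (F : ι → MvPolynomial (Fin (n + 1)) ℂ) : Prop :=
  [Brody F, AllGeneralType F, PicardHyperbolic F, AlgHyperbolic A F, BoundedOnCurves F,
    NoRationalCurves F, ∀ P, ¬ GmCurve F P, OrbitsConstant F, HyperbolicNear F].TFAE

theorem near_iff {n : ℕ} {ι : Type} {F : ι → MvPolynomial (Fin (n + 1)) ℂ}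
    (hF : ∀ e, IsForm (F e)) : Brody F ↔ HyperbolicNear F := by
  refine ⟨Pool.Agent.Y190.OP.open_brody hF, ?_⟩
  rintro ⟨ε, hε, h⟩
  refine h F hF fun e u _ => ?_
  rw [sub_self, norm_zero]
  exact hε.le

theorem equiv_of {n s N A : ℕ} {ι : Type} {F : ι → MvPolynomial (Fin (n + 1)) ℂ}
    (hC : Sys ∅ F s N) (hA : HgtBound ∅ F A) : Equivalent A F := by
  have h := lang_tfae hC hA
  unfold Equivalent
  tfae_have 1 ↔ 2 := h.out 0 1
  tfae_have 1 ↔ 3 := h.out 0 2
  tfae_have 1 ↔ 4 := h.out 0 3
  tfae_have 1 ↔ 5 := h.out 0 4
  tfae_have 1 ↔ 6 := h.out 0 5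
  tfae_have 1 ↔ 7 := h.out 0 6
  tfae_have 1 ↔ 8 := h.out 0 7
  tfae_have 1 ↔ 9 := near_iff hC.form
  tfae_finish

/-- The hypersurface `X = {F = 0}` is hyperbolic if and only if no set of variables is loose for `F`;
for all sets `J` of variables the following are equivalent: `J` is loose for `F`; there is an entire
curve in `X` on which exactly the coordinates outside `J` vanish identically; there is such a rational
curve, the closure of an orbit of a diagonal one-parameter group; there is a closed subvariety of `X`
of positive dimension, on which exactly the coordinates outside `J` vanish identically, which is not of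
general type. -/
def LooseCriterion {n : ℕ} (F : MvPolynomial (Fin (n + 1)) ℂ) : Prop :=
  (Brody (fun _ : Fin 1 => F) ↔ ∀ J, ¬ Loose F J) ∧
  ∀ J : Finset (Fin (n + 1)),
    [Loose F J,
      ∃ f, EntireCurve ∅ (fun _ : Fin 1 => F) f ∧ ∀ j, (∃ z, f z j ≠ 0) ↔ j ∈ J,
      ∃ (x : Fin (n + 1) → ℂ) (b : Fin (n + 1) → ℤ), (∀ j, x j ≠ 0 ↔ j ∈ J) ∧
        (∃ j ∈ J, ∃ j' ∈ J, b j ≠ b j') ∧ OrbitIn (fun _ : Fin 1 => F) b x,
      ∃ (K : Type) (_ : Field K) (_ : Algebra ℂ K) (w : ℕ) (y : Fin (n + 1) → K), 1 ≤ w ∧
        SubVar (fun _ : Fin 1 => F) K w y ∧ (∀ j, y j ≠ 0 ↔ j ∈ J) ∧ ¬ GeneralType ℂ K w].TFAE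

/-- (1) For all `n`, `s`, all nonempty sets of variables `I 1, …, I s` and almost all tuples of
monomials of degree `d` in `n + 1` variables, the `i`-th one in the variables from `I i`, there is `A`
such that the conditions in `Equivalent` are equivalent for all projective varieties given by `m`
linear combinations of these monomials and of the `x_j ^ d`. `LooseCriterion F` holds for all such
linear combinations `F`, with arbitrary coefficients. If any `m` of the coefficient vectors of the `m`
linear combinations are linearly independent, and the `I i` are well spread, with respect to `m`, on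
all sets of variables, then `X` and all varieties near `X` are hyperbolic, and all closed subvarieties
of positive dimension of `X` are of general type.

(2) The `I i` are well spread, with respect to `m`, on all sets of variables if all sets of `2 m + 2`
variables are among the `I i`, `m ≥ 1`, and all `I i` have at least `m + 1` elements. -/
theorem result :
    (∀ (n s : ℕ) (I : Fin s → Finset (Fin (n + 1))), (∀ i, (I i).Nonempty) →
      AlmostAllIn I fun d a => (∃ A : ℕ, ∀ (m : ℕ) (F : Fin m → MvPolynomial (Fin (n + 1)) ℂ),
        (∀ e, (F e).support ⊆ withPowers d a) → Equivalent A F ∧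
        (GenCoeffs F (withPowers d a) → (∀ J, Spread I m J) →
          Brody F ∧ HyperbolicNear F ∧ AllGeneralType F)) ∧
        ∀ F : MvPolynomial (Fin (n + 1)) ℂ, F.support ⊆ withPowers d a → LooseCriterion F) ∧
    ∀ (n m s : ℕ) (I : Fin s → Finset (Fin (n + 1))), 1 ≤ m → (∀ i, m + 1 ≤ (I i).card) →
      (∀ A : Finset (Fin (n + 1)), A.card = 2 * m + 2 → ∃ i, I i = A) → ∀ J, Spread I m J := by
  classical
  refine ⟨?_, fun n m s I hm hI hall => spread_all hm hI hall⟩
  intro n s I hI
  refine almost_typI hI fun d a hty => ?_
  obtain ⟨A, hA⟩ := hty.bound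
  obtain ⟨s', N, hg⟩ := hty.good
  have heq : ∀ (m : ℕ) (F : Fin m → MvPolynomial (Fin (n + 1)) ℂ),
      (∀ e, (F e).support ⊆ withPowers d a) → Equivalent A F := fun m F hFT =>
    equiv_of (hg.sys hFT ∅) (hA ℂ m F ∅ hFT).1
  refine ⟨⟨A, fun m F hFT => ⟨heq m F hFT, fun hgc hsp => ?_⟩⟩, fun F hF => ⟨?_, fun J => ?_⟩⟩
  · have h1 : Equivalent A F := heq m F hFT
    have h2 : AllGeneralType F := hty.all hFT hgc hsp
    have h3 : Brody F := (h1.out 0 1).2 h2
    exact ⟨h3, (h1.out 0 8).1 h3, h2⟩
  · have h1 : Equivalent A (fun _ : Fin 1 => F) := heq 1 _ fun _ => hF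
    rw [hty.loose_general hF]
    exact h1.out 0 1
  · have h1 := hty.crit hF J
    have h2 := hty.critSub hF (U := ∅) (J := J) fun j hj => absurd hj (Set.notMem_empty j)
    tfae_have 1 ↔ 2 := h1.out 0 3
    tfae_have 1 ↔ 3 := h1.out 0 1
    tfae_have 1 ↔ 4 := by
      rw [h2]
      constructor
      · rintro ⟨K, i1, i2, w, y, hw, hy, hyJ, hgt⟩
        exact ⟨K, i1, i2, w, y, hw, subVar_iff.1 hy, hyJ, fun h3 => hgt ((general_iff y).2 h3)⟩
      · rintro ⟨K, i1, i2, w, y, hw, hy, hyJ, hgt⟩
        exact ⟨K, i1, i2, w, y, hw, subVar_iff.2 hy, hyJ, fun h3 => hgt ((general_iff y).1 h3)⟩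
    tfae_finish

/-- **Wide systems.** Let `T e` be finitely many sets of at most `s` exponent vectors which are
`N`-wide with `N > n s (s - 1) (s - 2) / 2`. There is `A` such that for all projective varieties given
by forms `F e` with exponents in `T e` the conditions in `Equivalent` are equivalent. -/
theorem wide_systems : ∀ (n s N : ℕ) (ι : Type) [Finite ι]
      (T : ι → Finset (Fin (n + 1) →₀ ℕ)), 1 ≤ s →
      (∀ e, (T e).card ≤ s) → WideT ∅ T N → n * (s * ((s - 1) * (s - 2) / 2)) < N →
      ∃ A : ℕ, ∀ F : ι → MvPolynomial (Fin (n + 1)) ℂ, (∀ e, (F e).support ⊆ T e) →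
        (∀ e, IsForm (F e)) → Equivalent A F := by
  intro n s N ι _ T hs hT hW hN
  have hN' : s * (n * Pool.Agent.R869.tri (s - 1)) < N := by
    rw [tri_choose]
    refine lt_of_le_of_lt (le_of_eq ?_) hN
    ring
  obtain ⟨A, hA⟩ := unif ∅ T hs hT hW (cstC_lt hs hN')
  exact ⟨A, fun F hFT hF => equiv_of ⟨hF, hs, fun e => (Finset.card_le_card (hFT e)).trans (hT e),
    wide_of_wideT hW hFT, hN'⟩ (hA ℂ F hFT hF)⟩

end Pool.Agent.Results.MP_c6ff8d_ag.AlmostAllMonomials
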