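import Pool.Agent.R871.SG.WinC

/-!
MP_c6ff8d_ag, Q1: entire curves of arbitrary growth whose coefficients `a j`, `D < j ≤ d D`, vanish or are
very small for infinitely many `D`.
-/

set_option autoImplicit false

namespace Pool.Agent.Results.MP_c6ff8d_ag.GapCurves

open Pool.Agent.R871.SG MvPolynomial

/-- Let `F(t, x)` be polynomials over `ℂ` in `q` parameters `t` and `s` homogeneous coordinates `x`, of
degree at most `d` in `x`; let `X_t = {F(t, ·) = 0} ⊆ ℙ^(s-1)`, and let `T` be the union of countably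
many closed subsets `K l` of `ℂ^q` (for one variety `X`, `T` is a point). There are numbers `ε D > 0`
such that for every family of closed subsets `Z_t = {G(t, ·) = 0}` the following are equivalent:

(1) for all `t ∈ T`, all nonconstant algebraic maps `𝔸¹ → X_t` have images in `Z_t`;

(2) for all `t ∈ T`, all nonconstant entire curves in `X_t`, with homogeneous coordinates given by an
entire `f = ∑ a_j z ^ j` (common zeros are allowed) such that for arbitrarily large `D` all `a_j` with
`D < j ≤ d D` satisfy `‖a_j‖ ≤ ε D`, have images in `Z_t`. -/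
theorem result {q s : ℕ} {ι : Type} {F : ι → MvPolynomial (Fin q ⊕ Fin s) ℂ} {d : ℕ}
    (hF : ∀ i, DegFib (F i) d) (K : ℕ → Set (Fin q → ℂ)) (hK : ∀ l, IsClosed (K l)) :
    ∃ ε : ℕ → ℝ, (∀ D, 0 < ε D) ∧
      ∀ (κ : Type) (G : κ → MvPolynomial (Fin q ⊕ Fin s) ℂ),
        (∀ t ∈ ⋃ l, K l, ∀ P : Fin s → Polynomial ℂ, InFib F t (pc P) → NonConstLine (pc P) →
          InFib G t (pc P)) ↔
        ∀ t ∈ ⋃ l, K l, ∀ (f : ℂ → Fin s → ℂ) (a : ℕ → Fin s → ℂ), IsSeries f a → Windows d ε a →
          InFib F t f → NonConstLine f → InFib G t f :=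
  windows_iff hF K hK

end Pool.Agent.Results.MP_c6ff8d_ag.GapCurves
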